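import Pool.Agent.X26.GP.Sys
import Pool.Agent.Results.MP_51e72e_nt.OptimalScale
import Pool.Agent.Helper256.KM.Mertens

/-!
# Primes `F(n) + a` for almost all `a`: a lower bound with the sieve product of the window
-/

set_option autoImplicit false

namespace Pool.Agent.X26.QS

open Finset Filter Polynomial
open Pool.Agent.X26.GP (PX Zf NF)
open Pool.Agent.Results.MP_51e72e_nt.OptimalScale (rho S P M windows)

theorem prod_le : ∃ C : ℝ, 0 < C ∧ ∀ N : ℕ, 3 ≤ N →
    ∏ p ∈ (Icc 1 N).filter Nat.Prime, (1 - 1 / (p : ℝ)) ≤ C / Real.log N := by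
  obtain ⟨C, hC⟩ := Pool.Agent.Helper256.KM.mertens_inv
  refine ⟨Real.exp C, Real.exp_pos _, fun N hN => ?_⟩
  have h := hC N hN
  have hl : 1 ≤ Real.log N := by
    have h3 : (3 : ℝ) ≤ N := by exact_mod_cast hN
    rw [Real.le_log_iff_exp_le (by linarith)]
    have := Real.exp_one_lt_d9
    linarith
  have hl0 : 0 < Real.log N := by linarith
  calc ∏ p ∈ (Icc 1 N).filter Nat.Prime, (1 - 1 / (p : ℝ))
      ≤ ∏ p ∈ (Icc 1 N).filter Nat.Prime, Real.exp (-(1 / (p : ℝ))) := by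
        apply Finset.prod_le_prod
        · intro p hp
          have h1 : (1 : ℝ) ≤ p := by exact_mod_cast (mem_Icc.1 (mem_filter.1 hp).1).1
          rw [sub_nonneg, div_le_one (by linarith)]
          exact h1
        · intro p _
          have := Real.add_one_le_exp (-(1 / (p : ℝ)))
          linarith
    _ = Real.exp (-∑ p ∈ (Icc 1 N).filter Nat.Prime, (1 : ℝ) / p) := by
        rw [← Real.exp_sum, sum_neg_distrib]
    _ ≤ Real.exp (C - Real.log (Real.log N)) := by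
        apply Real.exp_le_exp.2
        have := (abs_le.1 h).1
        linarith
    _ = Real.exp C / Real.log N := by
        rw [Real.exp_sub, Real.exp_log hl0]

theorem rho_eq (F : ℤ[X]) (a : ℤ) (q : ℕ) : rho F a q = (Zf (F + C a) q).card := by
  unfold rho Zf
  congr 1
  apply filter_congr
  intro u _
  rw [eval_add, eval_C]

theorem rho_le (F : ℤ[X]) (a : ℤ) (q : ℕ) : rho F a q ≤ q := by
  unfold rho
  refine (card_filter_le _ _).trans ?_
  rw [card_range]

/-- growth -/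
theorem grow (B : ℕ) {θ : ℝ} (hθ : 0 < θ) (K : ℝ) : ∀ᶠ N : ℕ in atTop, K * Real.log N ^ B + K ≤ (N : ℝ) ^ θ := by
  have h1 : ∀ᶠ x : ℝ in atTop, ‖Real.log x ^ (B : ℝ)‖ ≤ 1 / (2 * (|K| + 1)) * ‖x ^ θ‖ :=
    (isLittleO_log_rpow_rpow_atTop (B : ℝ) hθ).bound (by positivity)
  have h2 := (tendsto_natCast_atTop_atTop (R := ℝ)).eventually h1
  have h3 := ((tendsto_rpow_atTop hθ).comp (tendsto_natCast_atTop_atTop (R := ℝ))).eventually_ge_atTop (2 * (|K| + 1))
  filter_upwards [h2, h3, eventually_ge_atTop 1] with N g1 g2 g3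
  have hN : (1 : ℝ) ≤ N := by exact_mod_cast g3
  have hl : 0 ≤ Real.log N := Real.log_nonneg hN
  have hNθ : 0 ≤ (N : ℝ) ^ θ := by positivity
  rw [Real.norm_of_nonneg (by positivity), Real.norm_of_nonneg hNθ, Real.rpow_natCast] at g1
  have g2' : 2 * (|K| + 1) ≤ (N : ℝ) ^ θ := g2
  have hK := le_abs_self K
  have hK0 := abs_nonneg K
  have h4 : K * Real.log N ^ B ≤ (|K| + 1) * Real.log N ^ B :=
    mul_le_mul_of_nonneg_right (by linarith) (by positivity)
  have h5 : (|K| + 1) * Real.log N ^ B ≤ (N : ℝ) ^ θ / 2 := by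
    calc (|K| + 1) * Real.log N ^ B ≤ (|K| + 1) * (1 / (2 * (|K| + 1)) * (N : ℝ) ^ θ) :=
          mul_le_mul_of_nonneg_left g1 (by linarith)
      _ = (N : ℝ) ^ θ / 2 := by field_simp
  linarith

theorem dens (F : ℤ[X]) (hF : 2 ≤ F.natDegree) {θ κ ε : ℝ} (hθ : 0 < θ) (hκ : 0 < κ) (hε : 0 < ε) :
    ∃ δ : ℝ, 0 < δ ∧ ∃ N₀ : ℕ, ∀ N : ℕ, N₀ ≤ N → ∃ Bad ⊆ Icc (-(N : ℤ)) N, (#Bad : ℝ) ≤ ε * N ∧
      ∀ a ∈ Icc (-(N : ℤ)) N, a ∉ Bad → NF (F + C a) → ∀ A X : ℕ, (N : ℝ) ^ θ ≤ X → X ≤ N →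
      (∀ n ∈ Ioc A (A + X), 2 ≤ F.eval (n : ℤ) + a ∧
        ((F.eval (n : ℤ) + a : ℤ) : ℝ) ≤ κ * X * (N : ℝ) ^ (1 - 1 / (F.natDegree : ℝ))) →
      δ * (X * PX (fun q => (Zf (F + C a) q).card) X) ≤
        (#((Ioc A (A + X)).filter (fun n : ℕ => (F.eval (n : ℤ) + a).natAbs.Prime)) : ℝ) := by
  obtain ⟨T, hT, B, X₀, h⟩ := windows F hF κ (min ε (1 / 2)) hκ (lt_min hε (by norm_num))
  obtain ⟨C₁, hC₁, hprod⟩ := prod_le
  obtain ⟨θ', hθ'd⟩ : ∃ θ', θ' = min θ (1 / 3) := ⟨_, rfl⟩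
  have hθ' : 0 < θ' := by rw [hθ'd]; exact lt_min hθ (by norm_num)
  have hev := (grow B (show 0 < θ' / 2 by positivity) (T + 4)).and ((grow 1 (show 0 < θ' by positivity) (T + 4)).and
    ((grow 1 (show (0 : ℝ) < 1 by norm_num) (κ + 4)).and (eventually_ge_atTop (max X₀ 3))))
  obtain ⟨N₀, hN₀⟩ := eventually_atTop.1 hev
  refine ⟨θ' / (12 * C₁), by positivity, max N₀ 3, fun N hN => ?_⟩
  obtain ⟨g1, g2, g3, g4⟩ := hN₀ N (by omega)
  obtain ⟨Bad, hB1, hB2, hB3⟩ := h N (by omega)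
  refine ⟨Bad, hB1, hB2.trans (mul_le_mul_of_nonneg_right (min_le_left _ _) (Nat.cast_nonneg _)), ?_⟩
  intro a ha haB hNF A X hX hXN hval
  have hN3 : (3 : ℝ) ≤ N := by exact_mod_cast (show 3 ≤ N by omega)
  have hN1 : (1 : ℝ) ≤ N := by linarith
  have hN0 : (0 : ℝ) < N := by linarith
  have hl : 1 ≤ Real.log N := by
    rw [Real.le_log_iff_exp_le hN0]
    have := Real.exp_one_lt_d9
    linarith
  have hl0 : 0 < Real.log N := by linarith
  have hB0 : 0 < Real.log N ^ B := by positivity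
  -- the parameter
  obtain ⟨z, hz⟩ : ∃ z : ℕ, z = min X ⌊(N : ℝ) ^ ((1 : ℝ) / 3)⌋₊ := ⟨_, rfl⟩
  have hθθ : θ' ≤ θ := by rw [hθ'd]; exact min_le_left _ _
  have hθ3 : θ' ≤ 1 / 3 := by rw [hθ'd]; exact min_le_right _ _
  have hXθ : (N : ℝ) ^ θ' ≤ X := (Real.rpow_le_rpow_of_exponent_le hN1 hθθ).trans hX
  have hhalf : (N : ℝ) ^ θ' = (N : ℝ) ^ (θ' / 2) * (N : ℝ) ^ (θ' / 2) := by
    rw [← Real.rpow_add hN0]
    congr 1
    ring
  have h4 : 4 ≤ (N : ℝ) ^ (θ' / 2) := by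
    have : 0 ≤ (T + 4) * Real.log N ^ B := by positivity
    linarith
  have hzl : (N : ℝ) ^ (θ' / 2) ≤ z := by
    have h5 : (N : ℝ) ^ (θ' / 2) + 1 ≤ (N : ℝ) ^ θ' := by
      rw [hhalf]
      nlinarith
    rw [hz, Nat.cast_min, le_min_iff]
    refine ⟨by linarith, ?_⟩
    have h6 := Nat.sub_one_lt_floor ((N : ℝ) ^ ((1 : ℝ) / 3))
    have h7 : (N : ℝ) ^ θ' ≤ (N : ℝ) ^ ((1 : ℝ) / 3) := Real.rpow_le_rpow_of_exponent_le hN1 hθ3
    linarith
  have hzB : Real.log N ^ B ≤ z := by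
    refine le_trans ?_ hzl
    nlinarith
  have hz3 : z ^ 3 ≤ N := by
    have h5 : (z : ℝ) ≤ (N : ℝ) ^ ((1 : ℝ) / 3) := by
      have h6 : z ≤ ⌊(N : ℝ) ^ ((1 : ℝ) / 3)⌋₊ := by rw [hz]; exact min_le_right _ _
      exact (Nat.cast_le.2 h6).trans (Nat.floor_le (by positivity))
    have h6 : (z : ℝ) ^ 3 ≤ N := by
      calc (z : ℝ) ^ 3 ≤ ((N : ℝ) ^ ((1 : ℝ) / 3)) ^ 3 := pow_le_pow_left₀ (by positivity) h5 _
        _ = N := by
            rw [← Real.rpow_natCast, ← Real.rpow_mul hN0.le]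
            norm_num
    exact_mod_cast h6
  have hzX : z ≤ X := by rw [hz]; exact min_le_left _ _
  have hz4 : (4 : ℝ) ≤ z := h4.trans hzl
  have hz3' : 3 ≤ z := by
    have : 4 ≤ z := by exact_mod_cast hz4
    omega
  obtain ⟨hS, hwin⟩ := hB3 a ha haB (by
    intro p hp
    obtain ⟨n, hn⟩ := hNF p hp
    refine ⟨n, ?_⟩
    rwa [eval_add, eval_C] at hn) z hzB hz3
  have hX0 : (0 : ℝ) < X := lt_of_lt_of_le (by positivity) hX
  have hXn : 0 < X := by exact_mod_cast hX0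
  have hTX : T * Real.log N ≤ X := by
    refine le_trans ?_ hXθ
    have : 0 ≤ 4 * Real.log N := by linarith
    rw [pow_one] at g2
    nlinarith
  have hw := hwin (A : ℤ) ((A + X : ℕ) : ℤ) (by push_cast; omega) (by push_cast; linarith) (by
    intro v hv
    rw [mem_Ioc] at hv
    obtain ⟨n, rfl⟩ : ∃ n : ℕ, v = n := ⟨v.toNat, by omega⟩
    have := hval n (by rw [mem_Ioc]; push_cast at hv; omega)
    refine ⟨this.1, this.2.trans (le_of_eq ?_)⟩
    push_cast
    ring)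
  -- the sum
  have hM : (X : ℝ) / (3 * Real.log N) ≤ M F a (A : ℤ) ((A + X : ℕ) : ℤ) := by
    unfold Pool.Agent.Results.MP_51e72e_nt.OptimalScale.M
    have h5 : ∀ v ∈ Ioc (A : ℤ) ((A + X : ℕ) : ℤ), 1 / (3 * Real.log N) ≤ 1 / Real.log ((F.eval v + a : ℤ) : ℝ) := by
      intro v hv
      rw [mem_Ioc] at hv
      obtain ⟨n, rfl⟩ : ∃ n : ℕ, v = n := ⟨v.toNat, by omega⟩
      obtain ⟨h6, h7⟩ := hval n (by rw [mem_Ioc]; push_cast at hv; omega)
      have h8 : (2 : ℝ) ≤ ((F.eval (n : ℤ) + a : ℤ) : ℝ) := by exact_mod_cast h6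
      have h9 : ((F.eval (n : ℤ) + a : ℤ) : ℝ) ≤ (N : ℝ) ^ 3 := by
        refine h7.trans ?_
        have k1 : (N : ℝ) ^ (1 - 1 / (F.natDegree : ℝ)) ≤ (N : ℝ) ^ (1 : ℝ) := by
          apply Real.rpow_le_rpow_of_exponent_le hN1
          have : 0 ≤ 1 / (F.natDegree : ℝ) := by positivity
          linarith
        rw [Real.rpow_one] at k1
        have k2 : κ ≤ N := by
          rw [pow_one, Real.rpow_one] at g3
          nlinarith
        have k3 : (X : ℝ) ≤ N := by exact_mod_cast hXN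
        have k4 : 0 ≤ (N : ℝ) ^ (1 - 1 / (F.natDegree : ℝ)) := by positivity
        calc κ * X * (N : ℝ) ^ (1 - 1 / (F.natDegree : ℝ)) ≤ N * N * N := by gcongr
          _ = (N : ℝ) ^ 3 := by ring
      have h10 : 0 < Real.log ((F.eval (n : ℤ) + a : ℤ) : ℝ) := Real.log_pos (by linarith)
      apply one_div_le_one_div_of_le h10
      have h11 := Real.log_le_log (by linarith) h9
      rw [Real.log_pow] at h11
      exact_mod_cast h11
    calc (X : ℝ) / (3 * Real.log N) = ∑ v ∈ Ioc (A : ℤ) ((A + X : ℕ) : ℤ), 1 / (3 * Real.log N) := by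
          rw [sum_const, Int.card_Ioc, nsmul_eq_mul]
          have : (((A + X : ℕ) : ℤ) - A).toNat = X := by push_cast; omega
          rw [this]
          ring
      _ ≤ _ := sum_le_sum h5
  have hPl : 1 / 2 * (S F a z * (X / (3 * Real.log N))) ≤ P F a (A : ℤ) ((A + X : ℕ) : ℤ) := by
    have h5 := (abs_le.1 hw).1
    have h6 : S F a z * (X / (3 * Real.log N)) ≤ S F a z * M F a (A : ℤ) ((A + X : ℕ) : ℤ) :=
      mul_le_mul_of_nonneg_left hM hS.le
    have h7 : min ε (1 / 2) * (S F a z * M F a (A : ℤ) ((A + X : ℕ) : ℤ)) ≤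
        1 / 2 * (S F a z * M F a (A : ℤ) ((A + X : ℕ) : ℤ)) := by
      apply mul_le_mul_of_nonneg_right (min_le_right _ _)
      have : 0 ≤ (X : ℝ) / (3 * Real.log N) := by positivity
      nlinarith
    linarith
  have hcard : P F a (A : ℤ) ((A + X : ℕ) : ℤ) ≤
      #((Ioc A (A + X)).filter (fun n : ℕ => (F.eval (n : ℤ) + a).natAbs.Prime)) := by
    unfold Pool.Agent.Results.MP_51e72e_nt.OptimalScale.P
    apply Finset.card_le_card_of_injOn Int.toNat
    · intro v hv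
      rw [mem_coe, mem_filter, mem_Ioc] at hv
      obtain ⟨n, rfl⟩ : ∃ n : ℕ, v = n := ⟨v.toNat, by omega⟩
      rw [mem_coe, mem_filter, mem_Ioc, Int.toNat_natCast]
      have hn : n ∈ Ioc A (A + X) := by rw [mem_Ioc]; push_cast at hv; omega
      refine ⟨mem_Ioc.1 hn, ?_⟩
      have h6 := (hval n hn).1
      have h7 : (F.eval (n : ℤ) + a).natAbs = (F.eval (n : ℤ) + a).toNat := by omega
      rw [h7]
      exact hv.2
    · intro v hv w hw hvw
      rw [mem_coe, mem_filter, mem_Ioc] at hv hw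
      omega
  -- the products
  have hprodz : PX (fun q => (Zf (F + C a) q).card) X ≤ S F a z * (C₁ / Real.log z) := by
    have h5 : PX (fun q => (Zf (F + C a) q).card) X ≤ PX (fun q => (Zf (F + C a) q).card) z := by
      unfold Pool.Agent.X26.GP.PX
      have hsub : (Icc 1 z).filter Nat.Prime ⊆ (Icc 1 X).filter Nat.Prime :=
        filter_subset_filter _ (Icc_subset_Icc_right hzX)
      rw [← prod_sdiff hsub]
      have h6 : ∏ q ∈ (Icc 1 X).filter Nat.Prime \ (Icc 1 z).filter Nat.Prime,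
          (1 - ((Zf (F + C a) q).card : ℝ) / q) ≤ 1 := by
        apply prod_le_one
        · intro q hq
          have hq1 : q.Prime := (mem_filter.1 (mem_sdiff.1 hq).1).2
          have hq0 : (0 : ℝ) < q := by exact_mod_cast hq1.pos
          rw [sub_nonneg, div_le_one hq0, ← rho_eq]
          exact_mod_cast rho_le F a q
        · intro q hq
          have : (0 : ℝ) ≤ ((Zf (F + C a) q).card : ℝ) / q := by positivity
          linarith
      have h7 : 0 ≤ ∏ q ∈ (Icc 1 z).filter Nat.Prime, (1 - ((Zf (F + C a) q).card : ℝ) / q) := by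
        apply prod_nonneg
        intro q hq
        have hq1 : q.Prime := (mem_filter.1 hq).2
        have hq0 : (0 : ℝ) < q := by exact_mod_cast hq1.pos
        rw [sub_nonneg, div_le_one hq0, ← rho_eq]
        exact_mod_cast rho_le F a q
      calc _ ≤ 1 * ∏ q ∈ (Icc 1 z).filter Nat.Prime, (1 - ((Zf (F + C a) q).card : ℝ) / q) :=
            mul_le_mul_of_nonneg_right h6 h7
        _ = _ := one_mul _
    have h6 : PX (fun q => (Zf (F + C a) q).card) z = S F a z *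
        ∏ p ∈ (Icc 1 z).filter Nat.Prime, (1 - 1 / (p : ℝ)) := by
      unfold Pool.Agent.X26.GP.PX Pool.Agent.Results.MP_51e72e_nt.OptimalScale.S
      have hs : (range (z + 1)).filter Nat.Prime = (Icc 1 z).filter Nat.Prime := by
        ext p
        rw [mem_filter, mem_filter, mem_range, mem_Icc]
        constructor
        · rintro ⟨h1, h2⟩
          exact ⟨⟨h2.one_le, by omega⟩, h2⟩
        · rintro ⟨⟨h1, h3⟩, h2⟩
          exact ⟨by omega, h2⟩
      rw [hs, ← prod_mul_distrib]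
      apply prod_congr rfl
      intro q hq
      have hq1 : q.Prime := (mem_filter.1 hq).2
      have hq2 : (2 : ℝ) ≤ q := by exact_mod_cast hq1.two_le
      have hq3 : (q : ℝ) - 1 ≠ 0 := by linarith
      have hq4 : (q : ℝ) ≠ 0 := by linarith
      show 1 - ((Zf (F + C a) q).card : ℝ) / q = _
      rw [← rho_eq]
      field_simp
    refine h5.trans ?_
    rw [h6]
    exact mul_le_mul_of_nonneg_left (hprod z hz3') hS.le
  have hlz : θ' / 2 * Real.log N ≤ Real.log z := by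
    have h5 := Real.log_le_log (by positivity) hzl
    rwa [Real.log_rpow hN0] at h5
  have hfin : C₁ / Real.log z ≤ 2 * C₁ / (θ' * Real.log N) := by
    have h5 : 0 < θ' / 2 * Real.log N := by positivity
    calc C₁ / Real.log z ≤ C₁ / (θ' / 2 * Real.log N) := by gcongr
      _ = 2 * C₁ / (θ' * Real.log N) := by field_simp
  have hPc : ((P F a (A : ℤ) ((A + X : ℕ) : ℤ) : ℕ) : ℝ) ≤
      (#((Ioc A (A + X)).filter (fun n : ℕ => (F.eval (n : ℤ) + a).natAbs.Prime)) : ℝ) := by exact_mod_cast hcard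
  refine le_trans ?_ hPc
  refine le_trans ?_ hPl
  calc θ' / (12 * C₁) * (X * PX (fun q => (Zf (F + C a) q).card) X)
      ≤ θ' / (12 * C₁) * (X * (S F a z * (2 * C₁ / (θ' * Real.log N)))) := by
        apply mul_le_mul_of_nonneg_left _ (by positivity)
        apply mul_le_mul_of_nonneg_left _ hX0.le
        exact hprodz.trans (mul_le_mul_of_nonneg_left hfin hS.le)
    _ = 1 / 2 * (S F a z * (X / (3 * Real.log N))) := by
        field_simp
        ring

end Pool.Agent.X26.QS
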