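import Pool.Agent.X26.QS.Pair

/-!
# Primes `a m² + b m + c` when only `b` varies: the sieve product of the window
-/

set_option autoImplicit false

namespace Pool.Agent.X26.QS

open Finset Filter Polynomial Topology
open Pool.Agent.X26.GP (PX Zf NF)
open Pool.Agent.W468.ConjF
open Pool.Agent.Y868.TB (NoBig const_close evt_root tail_b)
open Pool.Agent.W218.HF.QFinal (eps gcdProd cutC gcdProd_pos eps_pos)
open Pool.Agent.Y868.TA (dens pol)
open Pool.Agent.H373R2.T7 (pz Vz mem_pz)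

theorem mids (a : ℕ) (c : ℤ) (ha : 1 ≤ a) (hc : c ≠ 0) {θ : ℝ} (hθ : 0 < θ) :
    ∃ κ : ℝ, 0 < κ ∧ ∃ δ : ℝ, 0 < δ ∧ ∃ K B0 : ℕ, ∀ B : ℕ, B0 ≤ B → ∀ x : ℕ, (B : ℝ) ^ θ ≤ x →
      x * Real.log B ^ K ≤ B → ∃ S ⊆ Icc 1 B, κ * B ≤ (#S : ℝ) ∧ ∀ b ∈ S, Admissible a b c ∧
        δ * (x * PX (fun q => (Zf (quad a b c) q).card) x) ≤
          (#((Ioc 0 x).filter (fun m : ℕ => ((quad a b c).eval (m : ℤ)).natAbs.Prime)) : ℝ) := by
  classical
  obtain ⟨K, hK⟩ := Pool.Agent.W218.HF.QFinal.final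
  obtain ⟨κ, hκ, B1, h1⟩ := hK a c ha hc (1 / 2) (by norm_num)
  obtain ⟨B2, h2⟩ := tail_b 1 8
  obtain ⟨C₁, hC₁, hprod⟩ := prod_le'
  obtain ⟨σ, hσd⟩ : ∃ σ : ℝ, σ = min θ (1 / 10) := ⟨_, rfl⟩
  have hσ : 0 < σ := by rw [hσd]; exact lt_min hθ (by norm_num)
  have hσθ : σ ≤ θ := by rw [hσd]; exact min_le_left _ _
  have hσ10 : σ ≤ 1 / 10 := by rw [hσd]; exact min_le_right _ _
  have hn : 4 * (a : ℤ) * c ≠ 0 :=
    mul_ne_zero (mul_ne_zero (by norm_num) (by exact_mod_cast (by omega : a ≠ 0))) hc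
  obtain ⟨M, hM⟩ : ∃ M : ℝ, M = 16 * Real.log (4 * (a : ℤ) * c).natAbs + 4 * Real.log a + 1024 / κ + 64 := ⟨_, rfl⟩
  have hn1 : (1 : ℝ) ≤ (4 * (a : ℤ) * c).natAbs := by
    have : 1 ≤ (4 * (a : ℤ) * c).natAbs := Int.natAbs_pos.2 hn
    exact_mod_cast this
  have hln : 0 ≤ Real.log (4 * (a : ℤ) * c).natAbs := Real.log_nonneg hn1
  have har : (1 : ℝ) ≤ a := by exact_mod_cast ha
  have hla : 0 ≤ Real.log a := Real.log_nonneg har
  have hMκ : 0 < 1024 / κ := by positivity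
  have hM64 : 64 ≤ M := by rw [hM]; linarith
  have hlim : Filter.Tendsto (fun N : ℕ => Real.log (N : ℝ)) Filter.atTop Filter.atTop :=
    Real.tendsto_log_atTop.comp (tendsto_natCast_atTop_atTop (R := ℝ))
  obtain ⟨B3, h3⟩ := eventually_atTop.1 (hlim.eventually_ge_atTop (2 * M + 8 / κ + 2 / σ))
  have hpow : ∀ᶠ N : ℕ in atTop, ‖Real.log (N : ℝ) ^ (9 : ℝ)‖ ≤ 1 / 4 * ‖(N : ℝ) ^ σ‖ :=
    (tendsto_natCast_atTop_atTop (R := ℝ)).eventually ((isLittleO_log_rpow_rpow_atTop 9 hσ).bound (by norm_num))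
  obtain ⟨B4, h4⟩ := eventually_atTop.1 hpow
  have hpow2 : ∀ᶠ N : ℕ in atTop, (a : ℝ) + 8 ≤ (N : ℝ) ^ σ :=
    ((tendsto_rpow_atTop hσ).comp (tendsto_natCast_atTop_atTop (R := ℝ))).eventually_ge_atTop _
  obtain ⟨B5, h5⟩ := eventually_atTop.1 hpow2
  refine ⟨κ / 2, by positivity, σ / (32 * C₁), by positivity, K,
    max (max (max B1 B2) (max B3 B4)) (max B5 (max ((4 * (a : ℤ) * c).natAbs ^ 5) 3)), fun B hB x hBx hxB => ?_⟩
  have c1 := h1 B (le_trans (le_trans (le_trans (le_max_left _ _) (le_max_left _ _)) (le_max_left _ _)) hB)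
  have c2 := h2 B (le_trans (le_trans (le_trans (le_max_right _ _) (le_max_left _ _)) (le_max_left _ _)) hB)
  have c3 := h3 B (le_trans (le_trans (le_trans (le_max_left _ _) (le_max_right _ _)) (le_max_left _ _)) hB)
  have c4 := h4 B (le_trans (le_trans (le_trans (le_max_right _ _) (le_max_right _ _)) (le_max_left _ _)) hB)
  have c5 := h5 B (le_trans (le_trans (le_max_left _ _) (le_max_right _ _)) hB)
  have c6 : (4 * (a : ℤ) * c).natAbs ^ 5 ≤ B :=
    le_trans (le_trans (le_trans (le_max_left _ _) (le_max_right _ _)) (le_max_right _ _)) hB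
  have c7 : 3 ≤ B := le_trans (le_trans (le_trans (le_max_right _ _) (le_max_right _ _)) (le_max_right _ _)) hB
  obtain ⟨L, hL⟩ : ∃ L, L = Real.log B := ⟨_, rfl⟩
  have hB3 : (3 : ℝ) ≤ B := by exact_mod_cast c7
  have hB1' : (1 : ℝ) ≤ B := by linarith
  have hB0 : (0 : ℝ) < B := by linarith
  have h8κ : 0 < 8 / κ := by positivity
  have h2σ : 0 < 2 / σ := by positivity
  have c3' : 2 * M + 8 / κ + 2 / σ ≤ L := by rw [hL]; exact c3
  have hLM : 2 * M ≤ L := by linarith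
  have hL128 : 128 ≤ L := by linarith
  have hL0 : 0 < L := by linarith
  have hL1 : 1 ≤ L := by linarith
  have hLσ : 2 / σ ≤ L := by linarith
  have hLκ : 8 / κ ≤ L := by linarith
  have hBσ0 : 0 < (B : ℝ) ^ σ := by positivity
  have hL9 : 4 * L ^ 9 ≤ (B : ℝ) ^ σ := by
    rw [← hL, Real.norm_of_nonneg (by positivity), Real.norm_of_nonneg hBσ0.le] at c4
    have e : L ^ (9 : ℝ) = L ^ (9 : ℕ) := by
      rw [← Real.rpow_natCast]
      norm_num
    rw [e] at c4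
    linarith
  -- the levels
  obtain ⟨z, hz⟩ : ∃ z, z = ⌊L ^ 8⌋₊ := ⟨_, rfl⟩
  have hz2 : (z : ℝ) ≤ L ^ 8 := by rw [hz]; exact Nat.floor_le (by positivity)
  have hz1 : L ^ 7 ≤ z := by
    have h7 := Nat.lt_floor_add_one (L ^ 8)
    rw [← hz] at h7
    have h8 : L ^ 7 + 1 ≤ L ^ 8 := by
      have h9 : (1 : ℝ) ≤ L ^ 7 := one_le_pow₀ hL1
      have h10 : L ^ 8 = L ^ 7 * L := by ring
      rw [h10]
      nlinarith
    linarith
  have hzL : L ≤ z := (le_self_pow₀ hL1 (by norm_num)).trans hz1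
  have hz0 : (0 : ℝ) < z := by linarith
  have hz22 : 2 ≤ z := by
    have : (2 : ℝ) ≤ z := by linarith
    exact_mod_cast this
  obtain ⟨w, hw⟩ : ∃ w, w = ⌊(B : ℝ) ^ σ⌋₊ := ⟨_, rfl⟩
  have hw1 : (w : ℝ) ≤ (B : ℝ) ^ σ := by rw [hw]; exact Nat.floor_le hBσ0.le
  have hw2 : (B : ℝ) ^ σ < w + 1 := by rw [hw]; exact Nat.lt_floor_add_one _
  have hL91 : 1 ≤ L ^ 9 := one_le_pow₀ hL1
  have hwL : L ^ 9 ≤ w := by linarith
  have hzw : z ≤ w := by
    have h8 : L ^ 8 ≤ L ^ 9 := pow_le_pow_right₀ hL1 (by norm_num)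
    have : (z : ℝ) ≤ w := by linarith
    exact_mod_cast this
  have hwL1 : L * L ≤ w := by
    refine le_trans ?_ hwL
    rw [← sq]
    exact pow_le_pow_right₀ hL1 (by norm_num)
  have hw0 : (0 : ℝ) < w := by nlinarith
  have hwx : w ≤ x := by
    have h8 : (w : ℝ) ≤ x :=
      (hw1.trans (Real.rpow_le_rpow_of_exponent_le hB1' hσθ)).trans hBx
    exact_mod_cast h8
  have haw : a ≤ w := by
    have : (a : ℝ) ≤ w := by linarith
    exact_mod_cast this
  have hlw : σ / 2 * L ≤ Real.log w := by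
    have h8 : (B : ℝ) ^ σ / 2 ≤ w := by linarith
    have h9 := Real.log_le_log (by positivity) h8
    rw [Real.log_div hBσ0.ne' (by norm_num), Real.log_rpow hB0, ← hL] at h9
    have h10 := Real.log_two_lt_d9
    have h11 : 2 ≤ σ * L := by
      have := mul_le_mul_of_nonneg_left hLσ hσ.le
      rwa [mul_div_cancel₀ _ hσ.ne'] at this
    linarith
  have hLx : Real.log B ≤ x := by
    rw [← hL]
    have h8 : (w : ℝ) ≤ x := by exact_mod_cast hwx
    nlinarith
  obtain ⟨S, hS1, hS2, hS3⟩ := c1 x hLx hxB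
  obtain ⟨Ex, hE1, hE2⟩ := c2 z (by
    rw [← hL]
    refine le_trans ?_ hz1
    exact pow_le_pow_right₀ hL1 (by norm_num)) (by rw [← hL]; exact hz2) (4 * (a : ℤ) * c) hn c6
  have hmid := mid_gen (fun b : ℕ => (b : ℤ) ^ 2 - 4 * (a : ℤ) * c) (4 * (a : ℤ) * c) hn z w B hz22 (τ := 1 / 8)
    (R := (2 * (((B + 1 : ℕ) : ℝ) / z) + (w : ℝ) ^ 2) / (1 / 8 : ℝ) ^ 2) (by
      have : 16 * Real.log (4 * (a : ℤ) * c).natAbs ≤ L := by linarith
      linarith) (fun P hP => Pool.Agent.W218.HF.low_count_b (4 * (a : ℤ) * c) P z w (B + 1) (by omega) hP (1 / 8)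
        (by norm_num))
  set Bad := (Icc 1 B).filter (fun b : ℕ => 2 * (1 / 8 : ℝ) < |SJ ((b : ℤ) ^ 2 - 4 * (a : ℤ) * c) z w|) with hBad
  have hBadc : (#Bad : ℝ) ≤ κ / 4 * B := by
    refine hmid.trans ?_
    have e : (2 * (((B + 1 : ℕ) : ℝ) / z) + (w : ℝ) ^ 2) / (1 / 8 : ℝ) ^ 2 =
        128 * (((B + 1 : ℕ) : ℝ) / z) + 64 * (w : ℝ) ^ 2 := by ring
    rw [e]
    have g1 : 128 * (((B + 1 : ℕ) : ℝ) / z) ≤ κ / 8 * B := by
      rw [mul_div_assoc', div_le_iff₀ hz0]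
      push_cast
      have g2 : 2048 / κ ≤ z := by
        have : 2048 / κ = 2 * (1024 / κ) := by ring
        linarith
      have g3 : 2048 ≤ z * κ := by rwa [div_le_iff₀ hκ] at g2
      nlinarith
    have g2 : 64 * (w : ℝ) ^ 2 ≤ κ / 8 * B := by
      have g3 : (w : ℝ) ^ 2 ≤ (B : ℝ) ^ ((1 : ℝ) / 2) := by
        calc (w : ℝ) ^ 2 ≤ ((B : ℝ) ^ σ) ^ 2 := pow_le_pow_left₀ hw0.le hw1 2
          _ = (B : ℝ) ^ (σ * 2) := by rw [← Real.rpow_natCast, ← Real.rpow_mul hB0.le]; norm_num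
          _ ≤ _ := Real.rpow_le_rpow_of_exponent_le hB1' (by linarith)
      have g4 : (B : ℝ) ^ ((1 : ℝ) / 2) * (B : ℝ) ^ ((1 : ℝ) / 2) = B := by
        rw [← Real.rpow_add hB0]
        norm_num
      have g5 : L ≤ (B : ℝ) ^ ((1 : ℝ) / 2) := by
        calc L ≤ L * L := by nlinarith
          _ ≤ w := hwL1
          _ ≤ (B : ℝ) ^ σ := hw1
          _ ≤ _ := Real.rpow_le_rpow_of_exponent_le hB1' (by linarith)
      have g6 : 512 / κ ≤ (B : ℝ) ^ ((1 : ℝ) / 2) := by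
        have : 512 / κ = (1 / 2) * (1024 / κ) := by ring
        linarith
      have g7 : 512 ≤ (B : ℝ) ^ ((1 : ℝ) / 2) * κ := by rwa [div_le_iff₀ hκ] at g6
      have g8 : 0 < (B : ℝ) ^ ((1 : ℝ) / 2) := by positivity
      calc 64 * (w : ℝ) ^ 2 ≤ 64 * (B : ℝ) ^ ((1 : ℝ) / 2) := by linarith
        _ ≤ ((B : ℝ) ^ ((1 : ℝ) / 2) * κ) / 8 * (B : ℝ) ^ ((1 : ℝ) / 2) := by
            apply mul_le_mul_of_nonneg_right _ g8.le
            linarith
        _ = κ / 8 * ((B : ℝ) ^ ((1 : ℝ) / 2) * (B : ℝ) ^ ((1 : ℝ) / 2)) := by ring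
        _ = _ := by rw [g4]
    linarith
  have hExc : (#Ex : ℝ) ≤ κ / 8 * B := by
    refine hE1.trans ?_
    rw [← hL, pow_one, div_le_iff₀ hL0]
    have g1 : 8 ≤ L * κ := by rwa [div_le_iff₀ hκ] at hLκ
    nlinarith
  refine ⟨(S \ Ex) \ Bad, (sdiff_subset.trans sdiff_subset).trans hS1, ?_, ?_⟩
  · have g1 : #S ≤ #((S \ Ex) \ Bad) + #Ex + #Bad := by
      have k1 := card_le_card_sdiff_add_card (s := S) (t := Ex)
      have k2 := card_le_card_sdiff_add_card (s := S \ Ex) (t := Bad)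
      omega
    have g2 : (#S : ℝ) ≤ (#((S \ Ex) \ Bad) : ℝ) + #Ex + #Bad := by exact_mod_cast g1
    have g3 : 0 ≤ κ / 8 * B := by positivity
    linarith
  · intro b hb
    rw [Finset.mem_sdiff, Finset.mem_sdiff] at hb
    obtain ⟨⟨hbS, hbE⟩, hbB⟩ := hb
    have hbI := hS1 hbS
    obtain ⟨hadm, G0, hG00, hG0t, hG01, -⟩ := hS3 b hbS
    refine ⟨hadm, ?_⟩
    have hmid' : |SJ ((b : ℤ) ^ 2 - 4 * (a : ℤ) * c) z w| ≤ 1 / 4 := by
      by_contra hcon
      push Not at hcon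
      apply hbB
      rw [hBad, mem_filter]
      exact ⟨hbI, by linarith⟩
    obtain ⟨-, hSJ⟩ := hE2 b hbI hbE
    have hab3 : NoBig a b w := by
      intro p hp hwp hpd
      have h8 : p ∣ a := by exact_mod_cast hpd.1
      have := Nat.le_of_dvd (by omega) h8
      omega
    have hSJ' : ∀ᶠ N in atTop, |SJ ((b : ℤ) ^ 2 - 4 * (a : ℤ) * c) w N| ≤ 3 / 8 := by
      filter_upwards [hSJ, eventually_ge_atTop w] with N hN hwN
      rw [SJ_split _ hzw hwN] at hN
      have h8 : (1 : ℝ) / Real.log B ^ 1 ≤ 1 / 8 := by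
        rw [← hL, pow_one]
        apply one_div_le_one_div_of_le (by norm_num)
        linarith
      rw [abs_le] at hN hmid' ⊢
      constructor <;> linarith [hN.1, hN.2, hmid'.1, hmid'.2]
    have hη : 3 / 8 + 5 / (w : ℝ) + 4 * Real.log a / w ≤ 1 / 2 := by
      have h8 : 5 / (w : ℝ) + 4 * Real.log a / w ≤ 1 / 8 := by
        rw [← add_div, div_le_div_iff₀ hw0 (by norm_num), one_mul]
        have h9 : 4 * Real.log a ≤ L := by linarith
        nlinarith
      linarith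
    obtain ⟨C', hC0, hCt, hC⟩ := const_close a b c hadm w (hz22.trans hzw) hab3 (3 / 8) hSJ' hη
    have hCS : C' = G0 := tendsto_nhds_unique hCt hG0t
    rw [hCS] at hC
    obtain ⟨G, hG⟩ : ∃ G, G = eps a b * G0 * gcdProd a b := ⟨_, rfl⟩
    rw [← hG] at hC hG01
    have hGp : 0 < G := by rw [hG]; exact mul_pos (mul_pos (eps_pos a b) hG00) (gcdProd_pos a b)
    have hGd : dens 0 c a b w ≤ 2 * G := by
      have h8 := (abs_le.1 hC).2
      have h9 : 2 * (3 / 8 + 5 / (w : ℝ) + 4 * Real.log a / w) * G ≤ 1 * G :=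
        mul_le_mul_of_nonneg_right (by linarith) hGp.le
      linarith
    have hxp : (0 : ℝ) < x := by
      have h8 : (w : ℝ) ≤ x := by exact_mod_cast hwx
      linarith
    have hxB' : (x : ℝ) ≤ B := by
      refine le_trans ?_ hxB
      exact le_mul_of_one_le_right hxp.le (one_le_pow₀ (by rw [← hL]; exact hL1))
    have hlog : Real.log (B * x) ≤ 2 * L := by
      rw [Real.log_mul hB0.ne' hxp.ne', ← hL]
      have := Real.log_le_log hxp hxB'
      rw [← hL] at this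
      linarith
    have hlog0 : 0 < Real.log (B * x) := by
      apply Real.log_pos
      have h8 : (1 : ℝ) ≤ x := by
        have : 1 ≤ x := by omega
        exact_mod_cast this
      nlinarith
    have hpi : (piF a b c x : ℝ) ≤
        (#((Ioc 0 x).filter (fun m : ℕ => ((quad a b c).eval (m : ℤ)).natAbs.Prime)) : ℝ) := by
      unfold piF
      refine Nat.cast_le.2 (card_le_card ?_)
      intro m hm
      rw [mem_filter, mem_Icc] at hm
      rw [mem_filter, mem_Ioc, quad_eval]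
      refine ⟨by omega, ?_⟩
      have h8 := hm.2.pos
      have h9 : ((a : ℤ) * (m : ℤ) ^ 2 + b * m + c).natAbs = ((a : ℤ) * (m : ℤ) ^ 2 + b * m + c).toNat := by omega
      rw [h9]
      exact hm.2
    refine le_trans ?_ (hG01.trans hpi)
    have hPX := PX_dens a b c hwx
    have hV := hprod w (by
      have : (3 : ℝ) ≤ w := by nlinarith
      exact_mod_cast this)
    have hV2 : Vz w ≤ 2 * C₁ / (σ * L) := by
      refine hV.trans ?_
      calc C₁ / Real.log w ≤ C₁ / (σ / 2 * L) := by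
            apply div_le_div_of_nonneg_left hC₁.le (by positivity) hlw
        _ = _ := by field_simp
    have hV0 := Pool.Agent.H373R2.T7.Vz_pos w
    have hPX2 : PX (fun q => (Zf (quad a b c) q).card) x ≤ 2 * G * (2 * C₁ / (σ * L)) := by
      refine hPX.trans ?_
      calc dens 0 c a b w * Vz w ≤ 2 * G * Vz w := mul_le_mul_of_nonneg_right hGd hV0.le
        _ ≤ _ := mul_le_mul_of_nonneg_left hV2 (by positivity)
    calc σ / (32 * C₁) * (x * PX (fun q => (Zf (quad a b c) q).card) x)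
        ≤ σ / (32 * C₁) * (x * (2 * G * (2 * C₁ / (σ * L)))) := by gcongr
      _ = 1 / 4 * (G * x / (2 * L)) := by
          field_simp
          ring
      _ ≤ 1 / 2 * (G * x / (2 * L)) := by
          apply mul_le_mul_of_nonneg_right (by norm_num) (by positivity)
      _ ≤ 1 / 2 * (G * x / Real.log (B * x)) := by
          apply mul_le_mul_of_nonneg_left _ (by norm_num)
          exact div_le_div_of_nonneg_left (by positivity) hlog0 hlog
      _ = 1 / 2 * G * x / Real.log (B * x) := by ring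

end Pool.Agent.X26.QS
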