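import Pool.Agent.Y868.TB.F2
import Pool.Agent.X26.GP.Sys
import Pool.Agent.Helper256.KM.Mertens

/-!
# Primes `a m² + b m + c` for almost all `(a, b)`: a lower bound with the sieve product of the window
-/

set_option autoImplicit false

namespace Pool.Agent.X26.QS

open Finset Filter Polynomial Topology
open Pool.Agent.X26.GP (PX Zf NF)
open Pool.Agent.W468.ConjF
open Pool.Agent.Y868.TB (NoBig pairs_row pairs_col big_gcd_card tail_box const_close evt_root)
open Pool.Agent.W218.HF.QFinal (eps gcdProd cutC gcdProd_pos eps_pos)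
open Pool.Agent.Y868.TA (dens pol)
open Pool.Agent.H373R2.T7 (pz Vz mem_pz)

/-- the part of the sum over the primes between `z` and `w` -/
theorem mid_gen (f : ℕ → ℤ) (n : ℤ) (hn : n ≠ 0) (z w H : ℕ) (hz : 2 ≤ z) {τ R : ℝ}
    (hdiv : 2 * Real.log n.natAbs ≤ τ * z)
    (hlow : ∀ P : Finset ℕ, (∀ p ∈ P, p.Prime ∧ p ≠ 2 ∧ z < p ∧ p ≤ w ∧ ¬ (p : ℤ) ∣ n) →
      (#((range (H + 1)).filter (fun c : ℕ => τ < |∑ p ∈ P, (jacobiSym (f c) p : ℝ) / p|)) : ℝ) ≤ R) :
    (#((Icc 1 H).filter (fun c : ℕ => 2 * τ < |SJ (f c) z w|)) : ℝ) ≤ R := by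
  have hz0 : (0 : ℝ) < z := by exact_mod_cast (by omega : 0 < z)
  refine le_trans ?_ (hlow (((Ioc z w).filter Nat.Prime).filter (fun p : ℕ => ¬ (p : ℤ) ∣ n)) ?_)
  · refine Nat.cast_le.2 (card_le_card ?_)
    intro c hc
    rw [mem_filter, mem_Icc] at hc
    rw [mem_filter, mem_range]
    refine ⟨by omega, ?_⟩
    have e : SJ (f c) z w = ∑ p ∈ ((Ioc z w).filter Nat.Prime).filter (fun p : ℕ => (p : ℤ) ∣ n), (jacobiSym (f c) p : ℝ) / p +
        ∑ p ∈ ((Ioc z w).filter Nat.Prime).filter (fun p : ℕ => ¬ (p : ℤ) ∣ n), (jacobiSym (f c) p : ℝ) / p := by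
      unfold SJ
      rw [sum_filter_add_sum_filter_not]
    have h1 : |∑ p ∈ ((Ioc z w).filter Nat.Prime).filter (fun p : ℕ => (p : ℤ) ∣ n), (jacobiSym (f c) p : ℝ) / p| ≤ τ := by
      refine (abs_sum_le_sum_abs _ _).trans ?_
      calc ∑ p ∈ ((Ioc z w).filter Nat.Prime).filter (fun p : ℕ => (p : ℤ) ∣ n), |(jacobiSym (f c) p : ℝ) / p|
          ≤ ∑ p ∈ ((Ioc z w).filter Nat.Prime).filter (fun p : ℕ => (p : ℤ) ∣ n), 1 / (z : ℝ) := by
            apply sum_le_sum
            intro p hp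
            rw [mem_filter, mem_filter, mem_Ioc] at hp
            have hp0 : (z : ℝ) ≤ p := by exact_mod_cast hp.1.1.1.le
            have h2 : |(jacobiSym (f c) p : ℝ)| ≤ 1 := by
              rcases jacobiSym.trichotomy (f c) p with h | h | h <;> rw [h] <;> norm_num
            rw [abs_div, abs_of_nonneg (hz0.le.trans hp0)]
            exact div_le_div₀ (by norm_num) h2 hz0 hp0
        _ = (#(((Ioc z w).filter Nat.Prime).filter (fun p : ℕ => (p : ℤ) ∣ n)) : ℝ) / z := by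
            rw [sum_const, nsmul_eq_mul]
            ring
        _ ≤ (n.natAbs.primeFactors.card : ℝ) / z := by
            apply div_le_div_of_nonneg_right _ hz0.le
            refine Nat.cast_le.2 (card_le_card ?_)
            intro p hp
            rw [mem_filter, mem_filter] at hp
            rw [Nat.mem_primeFactors]
            exact ⟨hp.1.2, Int.natCast_dvd.1 hp.2, by omega⟩
        _ ≤ (2 * Real.log n.natAbs) / z := by
            apply div_le_div_of_nonneg_right _ hz0.le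
            exact Pool.Agent.H398R2.BV.omega_le_log n.natAbs (by omega)
        _ ≤ τ := by
            rw [div_le_iff₀ hz0]
            exact hdiv
    have h2 := hc.2
    rw [e] at h2
    have h3 := abs_add_le (∑ p ∈ ((Ioc z w).filter Nat.Prime).filter (fun p : ℕ => (p : ℤ) ∣ n), (jacobiSym (f c) p : ℝ) / p)
      (∑ p ∈ ((Ioc z w).filter Nat.Prime).filter (fun p : ℕ => ¬ (p : ℤ) ∣ n), (jacobiSym (f c) p : ℝ) / p)
    linarith
  · intro p hp
    rw [mem_filter, mem_filter, mem_Ioc] at hp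
    exact ⟨hp.1.2, by omega, hp.1.1.1, hp.1.1.2, hp.2⟩

open Classical in
/-- few pairs have a large sum over the primes between `z` and `w` -/
theorem mid_box (U K : ℕ) : ∃ x0 : ℕ, ∀ x : ℕ, x0 ≤ x → ∀ z w : ℕ,
    (512 + 16 * ((K : ℝ) + 3)) * Real.log x ^ (U + 1) ≤ z → (w : ℝ) ≤ (x : ℝ) ^ ((1 : ℝ) / (100 : ℕ)) →
    ∀ D B : ℕ, 1 ≤ D → (D : ℝ) ≤ (x : ℝ) ^ K → x ≤ B → ∀ c : ℤ, c ≠ 0 → |c| ^ 30 ≤ (x : ℤ) →
    (#((Icc 1 D ×ˢ Icc 1 B).filter (fun ab : ℕ × ℕ => 2 * (1 / 8 : ℝ) < |SJ ((ab.2 : ℤ) ^ 2 - 4 * (ab.1 : ℤ) * c) z w|)) : ℝ) ≤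
      D * B / Real.log x ^ U := by
  obtain ⟨x1, h1⟩ := evt_root 100 U (by norm_num) 128
  obtain ⟨x2, h2⟩ := Real.tendsto_log_atTop.comp (tendsto_natCast_atTop_atTop (R := ℝ)) |>.eventually_ge_atTop 4 |> eventually_atTop.1
  refine ⟨max (max x1 x2) 4, fun x hx z w hz hw D B hD1 hDx hxB c hc hcx => ?_⟩
  have b1 := h1 x ((le_max_left _ _).trans ((le_max_left _ _).trans hx))
  have b2 : 4 ≤ Real.log x := h2 x ((le_max_right _ _).trans ((le_max_left _ _).trans hx))
  have b3 : 4 ≤ x := (le_max_right _ _).trans hx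
  obtain ⟨L, hL⟩ : ∃ L, L = Real.log x := ⟨_, rfl⟩
  rw [← hL] at b1 b2 hz ⊢
  have hL1 : 1 ≤ L := by linarith
  have hL0 : 0 < L := by linarith
  have hx0 : (0 : ℝ) < x := by exact_mod_cast (by omega : 0 < x)
  have hx4 : (4 : ℝ) ≤ x := by exact_mod_cast b3
  have hK0 : (0 : ℝ) ≤ K := Nat.cast_nonneg _
  have hD0 : (0 : ℝ) < D := by exact_mod_cast hD1
  have hB1 : 1 ≤ B := by omega
  have hB0 : (0 : ℝ) < B := by exact_mod_cast hB1
  have hLU : 1 ≤ L ^ U := one_le_pow₀ hL1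
  obtain ⟨ρ, hρ⟩ : ∃ ρ : ℝ, ρ = (x : ℝ) ^ ((1 : ℝ) / (100 : ℕ)) := ⟨_, rfl⟩
  rw [← hρ] at b1 hw
  have hρ0 : 0 < ρ := by rw [hρ]; positivity
  have hρ100 : ρ ^ 100 = x := by
    rw [hρ, ← Real.rpow_natCast, ← Real.rpow_mul hx0.le]
    norm_num
  have hρ128 : 128 ≤ ρ := by nlinarith
  have hρ1 : 1 ≤ ρ := by linarith
  have hc0 : 1 ≤ |c| := Int.one_le_abs hc
  have hcn : (|c| : ℤ) = (c.natAbs : ℤ) := (Int.natCast_natAbs c).symm
  have hcn1 : 1 ≤ c.natAbs := Int.natAbs_pos.2 hc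
  have hcx' : c.natAbs ^ 30 ≤ x := by
    rw [hcn] at hcx
    exact_mod_cast hcx
  have hcx1 : c.natAbs ≤ x := (Nat.le_self_pow (by norm_num) _).trans hcx'
  have hcr : (c.natAbs : ℝ) ≤ x := by exact_mod_cast hcx1
  have hzL : (512 + 16 * ((K : ℝ) + 3)) * L ≤ z := by
    refine le_trans ?_ hz
    apply mul_le_mul_of_nonneg_left _ (by positivity)
    exact le_self_pow₀ hL1 (by omega)
  have hzU : 512 * L ^ U ≤ z := by
    refine le_trans ?_ hz
    rw [pow_succ]
    have : L ^ U * 1 ≤ L ^ U * L := mul_le_mul_of_nonneg_left hL1 (by positivity)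
    nlinarith [pow_pos hL0 U]
  have hz0 : (0 : ℝ) < z := lt_of_lt_of_le (by positivity) hzU
  have hz2 : 2 ≤ z := by
    have : (2 : ℝ) ≤ z := by linarith
    exact_mod_cast this
  -- the bound for a range of length `H`
  have key : ∀ H : ℕ, 1 ≤ H → ρ ^ 3 ≤ H → (2 * (((H + 1 : ℕ) : ℝ) / z) + (w : ℝ) ^ 2) / (1 / 8 : ℝ) ^ 2 ≤ H / L ^ U := by
    intro H hH hHρ
    have hH1 : (1 : ℝ) ≤ H := by exact_mod_cast hH
    have h3 : 2 * (((H + 1 : ℕ) : ℝ) / z) ≤ H / L ^ U * (1 / 128) := by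
      rw [div_mul_div_comm, mul_one, mul_div_assoc', div_le_div_iff₀ hz0 (by positivity)]
      push_cast
      have h5 : 2 * ((H : ℝ) + 1) ≤ 4 * H := by linarith
      calc 2 * ((H : ℝ) + 1) * (L ^ U * 128) ≤ 4 * H * (L ^ U * 128) :=
            mul_le_mul_of_nonneg_right h5 (by positivity)
        _ = H * (512 * L ^ U) := by ring
        _ ≤ H * z := mul_le_mul_of_nonneg_left hzU (by positivity)
    have h4 : (w : ℝ) ^ 2 ≤ H / L ^ U * (1 / 128) := by
      have h5 : (w : ℝ) ^ 2 ≤ ρ ^ 2 := pow_le_pow_left₀ (by positivity) hw 2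
      refine h5.trans ?_
      rw [div_mul_div_comm, mul_one, le_div_iff₀ (by positivity)]
      calc ρ ^ 2 * (L ^ U * 128) = ρ ^ 2 * (128 * L ^ U) := by ring
        _ ≤ ρ ^ 2 * ρ := mul_le_mul_of_nonneg_left b1 (by positivity)
        _ = ρ ^ 3 := by ring
        _ ≤ H := hHρ
    have h5 : (2 * (((H + 1 : ℕ) : ℝ) / z) + (w : ℝ) ^ 2) / (1 / 8 : ℝ) ^ 2 = (2 * (((H + 1 : ℕ) : ℝ) / z) + (w : ℝ) ^ 2) * 64 := by
      ring
    rw [h5]
    linarith
  -- logarithms
  have hlog4 : Real.log 4 ≤ L := by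
    rw [hL]
    exact Real.log_le_log (by norm_num) hx4
  rcases Nat.lt_or_ge (D ^ 30) x with hcase | hcase
  · have h3 := pairs_row D B (fun a b => 2 * (1 / 8 : ℝ) < |SJ ((b : ℤ) ^ 2 - 4 * (a : ℤ) * c) z w|) (B / L ^ U) ?_
    · refine h3.trans (le_of_eq ?_)
      ring
    · intro a ha
      rw [mem_Icc] at ha
      have ha0 : (a : ℤ) ≠ 0 := by exact_mod_cast (by omega : a ≠ 0)
      have hn : 4 * (a : ℤ) * c ≠ 0 := mul_ne_zero (mul_ne_zero (by norm_num) ha0) hc
      have e1 : (4 * (a : ℤ) * c).natAbs = 4 * a * c.natAbs := by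
        rw [Int.natAbs_mul, Int.natAbs_mul]; rfl
      refine mid_gen (fun b : ℕ => (b : ℤ) ^ 2 - 4 * (a : ℤ) * c) (4 * (a : ℤ) * c) hn z w B hz2 (τ := 1 / 8) (R := B / L ^ U) ?_ ?_
      · rw [e1]
        have har : (1 : ℝ) ≤ a := by exact_mod_cast ha.1
        have hcr1 : (1 : ℝ) ≤ c.natAbs := by exact_mod_cast hcn1
        have h4 : Real.log ((4 * a * c.natAbs : ℕ) : ℝ) ≤ (K + 3) * L := by
          push_cast
          rw [Real.log_mul (by positivity) (by positivity), Real.log_mul (by norm_num) (by positivity)]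
          have h5 : Real.log a ≤ K * L := by
            rw [hL, ← Real.log_pow]
            apply Real.log_le_log (by positivity)
            have : (a : ℝ) ≤ D := by exact_mod_cast ha.2
            exact this.trans hDx
          have h6 : Real.log c.natAbs ≤ L := by
            rw [hL]
            exact Real.log_le_log (by positivity) hcr
          linarith
        nlinarith
      · intro P hP
        refine (Pool.Agent.W218.HF.low_count_b (4 * (a : ℤ) * c) P z w (B + 1) (by omega) hP (1 / 8) (by norm_num)).trans ?_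
        refine key B hB1 ?_
        calc ρ ^ 3 ≤ ρ ^ 100 := pow_le_pow_right₀ hρ1 (by norm_num)
          _ = x := hρ100
          _ ≤ B := by exact_mod_cast hxB
  · have h3 := pairs_col D B (fun a b => 2 * (1 / 8 : ℝ) < |SJ ((b : ℤ) ^ 2 - 4 * (a : ℤ) * c) z w|) (D / L ^ U) ?_
    · refine h3.trans (le_of_eq ?_)
      ring
    · intro b hb
      rw [mem_Icc] at hb
      have hn : 4 * c ≠ 0 := mul_ne_zero (by norm_num) hc
      have e1 : (4 * c).natAbs = 4 * c.natAbs := by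
        rw [Int.natAbs_mul]; rfl
      refine mid_gen (fun a : ℕ => (b : ℤ) ^ 2 - 4 * (a : ℤ) * c) (4 * c) hn z w D hz2 (τ := 1 / 8) (R := D / L ^ U) ?_ ?_
      · rw [e1]
        have hcr1 : (1 : ℝ) ≤ c.natAbs := by exact_mod_cast hcn1
        have h4 : Real.log ((4 * c.natAbs : ℕ) : ℝ) ≤ (K + 3) * L := by
          push_cast
          rw [Real.log_mul (by norm_num) (by positivity)]
          have h6 : Real.log c.natAbs ≤ L := by
            rw [hL]
            exact Real.log_le_log (by positivity) hcr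
          nlinarith
        nlinarith
      · intro P hP
        have e : ∀ a : ℕ, (b : ℤ) ^ 2 - 4 * (a : ℤ) * c = (b : ℤ) ^ 2 + (-(4 * c)) * (a : ℤ) := by
          intro a; ring
        simp only [e]
        refine (Pool.Agent.Y868.TB.low_count_lin ((b : ℤ) ^ 2) (-(4 * c)) P z w (D + 1) (by omega) ?_ (1 / 8) (by norm_num)).trans ?_
        · intro p hp
          obtain ⟨q1, q2, q3, q4, q5⟩ := hP p hp
          exact ⟨q1, q2, q3, q4, fun h => q5 ((dvd_neg).1 h)⟩
        refine key D hD1 ?_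
        have h5 : (ρ ^ 3) ^ 30 ≤ (D : ℝ) ^ 30 := by
          calc (ρ ^ 3) ^ 30 = ρ ^ 90 := by rw [← pow_mul]
            _ ≤ ρ ^ 100 := pow_le_pow_right₀ hρ1 (by norm_num)
            _ = x := hρ100
            _ ≤ (D : ℝ) ^ 30 := by exact_mod_cast hcase
        exact le_of_pow_le_pow_left₀ (by norm_num) hD0.le h5

theorem prod_le' : ∃ C : ℝ, 0 < C ∧ ∀ N : ℕ, 3 ≤ N → Vz N ≤ C / Real.log N := by
  obtain ⟨C, hC⟩ := Pool.Agent.Helper256.KM.mertens_inv
  refine ⟨Real.exp C, Real.exp_pos _, fun N hN => ?_⟩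
  have h := hC N hN
  have hl : 1 ≤ Real.log N := by
    have h3 : (3 : ℝ) ≤ N := by exact_mod_cast hN
    rw [Real.le_log_iff_exp_le (by linarith)]
    have := Real.exp_one_lt_d9
    linarith
  have hl0 : 0 < Real.log N := by linarith
  calc Vz N = ∏ p ∈ (Icc 1 N).filter Nat.Prime, (1 - 1 / (p : ℝ)) := rfl
    _ ≤ ∏ p ∈ (Icc 1 N).filter Nat.Prime, Real.exp (-(1 / (p : ℝ))) := by
        apply Finset.prod_le_prod
        · intro p hp
          have h1 : (1 : ℝ) ≤ p := by exact_mod_cast (mem_Icc.1 (mem_filter.1 hp).1).1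
          rw [sub_nonneg, div_le_one (by linarith)]
          exact h1
        · intro p _
          have := Real.add_one_le_exp (-(1 / (p : ℝ)))
          linarith
    _ = Real.exp (-∑ p ∈ (Icc 1 N).filter Nat.Prime, (1 : ℝ) / p) := by
        rw [← Real.exp_sum, sum_neg_distrib]
    _ ≤ Real.exp (C - Real.log (Real.log N)) := by
        apply Real.exp_le_exp.2
        have := (abs_le.1 h).1
        linarith
    _ = Real.exp C / Real.log N := by
        rw [Real.exp_sub, Real.exp_log hl0]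

/-- the quadratic polynomial -/
noncomputable def quad (a b c : ℤ) : ℤ[X] := C a * X ^ 2 + C b * X + C c

theorem quad_eval (a b c n : ℤ) : (quad a b c).eval n = a * n ^ 2 + b * n + c := by
  unfold quad
  simp

theorem quad_deg (a b c : ℤ) : (quad a b c).natDegree ≤ 2 := by
  unfold quad
  exact natDegree_quadratic_le

theorem rho_pol (a b : ℕ) (c : ℤ) (p : ℕ) :
    Pool.Agent.TH204.WR.rho (pol 0 a b) c p = (Zf (quad a b c) p).card := by
  unfold Pool.Agent.TH204.WR.rho Zf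
  congr 1
  apply filter_congr
  intro u _
  rw [Pool.Agent.Y868.TA.pol_eval, quad_eval, eval_zero]
  have : (u : ℤ) * (0 + (a : ℤ) * u + b) + c = (a : ℤ) * (u : ℤ) ^ 2 + b * u + c := by ring
  rw [this]

theorem Zf_le (f : ℤ[X]) (q : ℕ) : (Zf f q).card ≤ q := by
  unfold Zf
  refine (card_filter_le _ _).trans ?_
  rw [card_range]

/-- the sieve product of the window and the density cut at `w` -/
theorem PX_dens (a b : ℕ) (c : ℤ) {w X : ℕ} (h : w ≤ X) :
    PX (fun q => (Zf (quad a b c) q).card) X ≤ dens 0 c a b w * Vz w := by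
  have h6 : ∏ q ∈ (Icc 1 X).filter Nat.Prime \ (Icc 1 w).filter Nat.Prime,
      (1 - ((Zf (quad a b c) q).card : ℝ) / q) ≤ 1 := by
    apply prod_le_one
    · intro q hq
      have hq1 : q.Prime := (mem_filter.1 (mem_sdiff.1 hq).1).2
      have hq0 : (0 : ℝ) < q := by exact_mod_cast hq1.pos
      rw [sub_nonneg, div_le_one hq0]
      exact_mod_cast Zf_le _ _
    · intro q hq
      have : (0 : ℝ) ≤ ((Zf (quad a b c) q).card : ℝ) / q := by positivity
      linarith
  have h7 : 0 ≤ ∏ q ∈ (Icc 1 w).filter Nat.Prime, (1 - ((Zf (quad a b c) q).card : ℝ) / q) := by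
    apply prod_nonneg
    intro q hq
    have hq1 : q.Prime := (mem_filter.1 hq).2
    have hq0 : (0 : ℝ) < q := by exact_mod_cast hq1.pos
    rw [sub_nonneg, div_le_one hq0]
    exact_mod_cast Zf_le _ _
  have hsub : (Icc 1 w).filter Nat.Prime ⊆ (Icc 1 X).filter Nat.Prime :=
    filter_subset_filter _ (Icc_subset_Icc_right h)
  have h8 : dens 0 c a b w * Vz w = ∏ q ∈ (Icc 1 w).filter Nat.Prime, (1 - ((Zf (quad a b c) q).card : ℝ) / q) := by
    unfold Pool.Agent.Y868.TA.dens Pool.Agent.TH204.WR.hh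
    have hV := (Pool.Agent.H373R2.T7.Vz_pos w).ne'
    rw [mul_comm, ← mul_assoc, mul_inv_cancel₀ hV, one_mul]
    unfold Pool.Agent.H373R2.T7.pz
    refine prod_congr rfl fun q _ => ?_
    rw [rho_pol]
  rw [h8]
  unfold Pool.Agent.X26.GP.PX
  rw [← prod_sdiff hsub]
  calc _ ≤ 1 * ∏ q ∈ (Icc 1 w).filter Nat.Prime, (1 - ((Zf (quad a b c) q).card : ℝ) / q) :=
        mul_le_mul_of_nonneg_right h6 h7
    _ = _ := one_mul _

theorem SJ_split (D : ℤ) {z w N : ℕ} (h1 : z ≤ w) (h2 : w ≤ N) : SJ D z N = SJ D z w + SJ D w N := by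
  unfold SJ
  rw [← sum_union]
  · congr 1
    rw [← filter_union, Ioc_union_Ioc_eq_Ioc h1 h2]
  · rw [Finset.disjoint_left]
    intro u hu hv
    rw [mem_filter, mem_Ioc] at hu hv
    omega

/-- **The order of the number of the primes `a m² + b m + c` in long windows, for almost all pairs.** -/
theorem pairs (U K A : ℕ) : ∃ δ : ℝ, 0 < δ ∧ ∃ C x0 : ℕ, ∀ x : ℕ, x0 ≤ x → ∀ D B : ℕ, Real.log x ^ C ≤ D →
    (D : ℝ) ≤ (x : ℝ) ^ K → (D : ℝ) * x ≤ B * Real.log x ^ K → (B : ℝ) ≤ D * x * Real.log x ^ K →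
    ∀ c : ℤ, c ≠ 0 → |c| ^ 30 ≤ (x : ℤ) →
    ∃ Bad ⊆ Icc 1 D ×ˢ Icc 1 B, (#Bad : ℝ) ≤ D * B / Real.log x ^ U ∧
      ∀ a ∈ Icc 1 D, ∀ b ∈ Icc 1 B, (a, b) ∉ Bad → Admissible a b c →
        ∀ u X : ℕ, u + X ≤ x → (x : ℝ) ≤ X * Real.log x ^ A →
          δ * (X * PX (fun q => (Zf (quad a b c) q).card) X) ≤
            (#((Ioc u (u + X)).filter (fun m : ℕ => ((quad a b c).eval (m : ℤ)).natAbs.Prime)) : ℝ) := by
  classical
  obtain ⟨C1, x1, h1⟩ := Pool.Agent.Y868.TB.final (U + A + 4) K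
  obtain ⟨E0, htb⟩ := tail_box (U + 3) K
  obtain ⟨E, hE⟩ : ∃ E, E = max E0 (U + 5) := ⟨_, rfl⟩
  have hEE0 : E0 ≤ E := by rw [hE]; exact le_max_left _ _
  have hEU : U + 5 ≤ E := by rw [hE]; exact le_max_right _ _
  obtain ⟨x2, h2⟩ := htb E hEE0
  obtain ⟨x3, h3⟩ := mid_box (U + 3) K
  obtain ⟨x4, h4⟩ := evt_root 100 (E + 2) (by norm_num) 64
  obtain ⟨x5, h5⟩ := evt_root 2 (U + K) (by norm_num) 104
  obtain ⟨x6, h6⟩ := evt_root 2 (K + A) (by norm_num) 1
  obtain ⟨C₁, hC₁, hprod⟩ := prod_le'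
  have hlim : Filter.Tendsto (fun N : ℕ => Real.log (N : ℝ)) Filter.atTop Filter.atTop :=
    Real.tendsto_log_atTop.comp (tendsto_natCast_atTop_atTop (R := ℝ))
  obtain ⟨x7, h7⟩ := eventually_atTop.1 (hlim.eventually_ge_atTop (2 * (512 + 16 * ((K : ℝ) + 3)) + 32 * K + 200))
  refine ⟨1 / (800 * (K + 4) * C₁), by positivity, C1 + K, max (max (max x1 x2) (max x3 x4)) (max (max x5 x6) (max x7 4)),
    fun x hx D B hD1 hD2 hDB hBD c hc hcx => ?_⟩
  have b1 := h1 x (le_trans (le_trans (le_trans (le_max_left _ _) (le_max_left _ _)) (le_max_left _ _)) hx)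
  have b2 := h2 x (le_trans (le_trans (le_trans (le_max_right _ _) (le_max_left _ _)) (le_max_left _ _)) hx)
  have b3 := h3 x (le_trans (le_trans (le_trans (le_max_left _ _) (le_max_right _ _)) (le_max_left _ _)) hx)
  have b4 := h4 x (le_trans (le_trans (le_trans (le_max_right _ _) (le_max_right _ _)) (le_max_left _ _)) hx)
  have b5 := h5 x (le_trans (le_trans (le_trans (le_max_left _ _) (le_max_left _ _)) (le_max_right _ _)) hx)
  have b6 := h6 x (le_trans (le_trans (le_trans (le_max_right _ _) (le_max_left _ _)) (le_max_right _ _)) hx)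
  have b7 := h7 x (le_trans (le_trans (le_trans (le_max_left _ _) (le_max_right _ _)) (le_max_right _ _)) hx)
  have hx4 : 4 ≤ x := le_trans (le_trans (le_trans (le_max_right _ _) (le_max_right _ _)) (le_max_right _ _)) hx
  obtain ⟨L, hL⟩ : ∃ L, L = Real.log x := ⟨_, rfl⟩
  simp only [← hL] at b1 b2 b3 b4 b5 b6 b7 hD1 hDB hBD ⊢
  have hx0 : (0 : ℝ) < x := by exact_mod_cast (by omega : 0 < x)
  have hx1 : (1 : ℝ) ≤ x := by exact_mod_cast (by omega : 1 ≤ x)
  have hx4r : (4 : ℝ) ≤ x := by exact_mod_cast hx4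
  have hK0 : (0 : ℝ) ≤ K := Nat.cast_nonneg _
  have hL200 : 200 ≤ L := by linarith
  have hLK : 32 * (K : ℝ) ≤ L := by linarith
  have hLK2 : 2 * (512 + 16 * ((K : ℝ) + 3)) ≤ L := by linarith
  have hL0 : 0 < L := by linarith
  have hL1 : 1 ≤ L := by linarith
  have hLp : ∀ k : ℕ, 0 < L ^ k := fun k => by positivity
  have hLp1 : ∀ k : ℕ, 1 ≤ L ^ k := fun k => one_le_pow₀ hL1
  have hLL : ∀ {i j : ℕ}, i ≤ j → L ^ i ≤ L ^ j := fun h => pow_le_pow_right₀ hL1 h
  -- the level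
  obtain ⟨z, hz⟩ : ∃ z, z = ⌊L ^ E⌋₊ := ⟨_, rfl⟩
  have hz2 : (z : ℝ) ≤ L ^ E := by rw [hz]; exact Nat.floor_le (hLp E).le
  have hz1 : L ^ E ≤ 2 * z := by
    have h7 := Nat.lt_floor_add_one (L ^ E)
    rw [← hz] at h7
    have h9 : (1 : ℝ) ≤ z := by
      have : 1 ≤ z := by
        rw [hz, Nat.one_le_floor_iff]
        exact hLp1 E
      exact_mod_cast this
    linarith
  have hzm : (512 + 16 * ((K : ℝ) + 3)) * L ^ (U + 3 + 1) ≤ z := by
    have h8 : L * L ^ (U + 4) ≤ L ^ E := by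
      rw [← pow_succ']
      exact hLL (by omega)
    have h9 := mul_le_mul_of_nonneg_right hLK2 (hLp (U + 4)).le
    have e : U + 3 + 1 = U + 4 := by omega
    rw [e]
    linarith
  have hzU3 : 8 * L ^ U ≤ z := by
    refine le_trans ?_ hzm
    have h8 : L ^ U ≤ L ^ (U + 3 + 1) := hLL (by omega)
    have h9 : 8 * L ^ (U + 3 + 1) ≤ (512 + 16 * ((K : ℝ) + 3)) * L ^ (U + 3 + 1) :=
      mul_le_mul_of_nonneg_right (by linarith) (hLp _).le
    linarith
  have hz0 : (0 : ℝ) < z := by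
    have := hLp U
    linarith
  have hz22 : 2 ≤ z := by
    have h8 := hLp1 U
    have : (2 : ℝ) ≤ z := by linarith
    exact_mod_cast this
  -- the second level
  obtain ⟨ρ, hρ⟩ : ∃ ρ : ℝ, ρ = (x : ℝ) ^ ((1 : ℝ) / (100 : ℕ)) := ⟨_, rfl⟩
  rw [← hρ] at b4
  have hρ0 : 0 < ρ := by rw [hρ]; positivity
  obtain ⟨w, hw⟩ : ∃ w, w = ⌊ρ⌋₊ := ⟨_, rfl⟩
  have hw1 : (w : ℝ) ≤ ρ := by rw [hw]; exact Nat.floor_le hρ0.le
  have hw2 : ρ < w + 1 := by rw [hw]; exact Nat.lt_floor_add_one ρ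
  have hρL : 64 * L ^ (E + 2) ≤ ρ := b4
  have hwL : 32 * L ^ (E + 2) ≤ w := by
    have := hLp1 (E + 2)
    linarith
  have hzw : z ≤ w := by
    have h8 : L ^ E ≤ L ^ (E + 2) := hLL (by omega)
    have h9 := hLp1 (E + 2)
    have : (z : ℝ) ≤ w := by linarith
    exact_mod_cast this
  have hwr : 32 * L ≤ w := by
    have h8 : L ≤ L ^ (E + 2) := le_self_pow₀ hL1 (by omega)
    linarith
  have hw0 : (0 : ℝ) < w := by linarith
  have hlw : L / 200 ≤ Real.log w := by
    have h8 : ρ / 2 ≤ w := by linarith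
    have h9 := Real.log_le_log (by positivity) h8
    rw [Real.log_div hρ0.ne' (by norm_num), hρ, Real.log_rpow hx0, ← hL] at h9
    have h10 := Real.log_two_lt_d9
    push_cast at h9
    linarith
  -- sizes
  have hD1K : L ^ K ≤ D := (hLL (by omega)).trans hD1
  have hD1C : L ^ C1 ≤ D := (hLL (by omega)).trans hD1
  have hD1r : (1 : ℝ) ≤ D := (hLp1 K).trans hD1K
  have hDn : 1 ≤ D := by exact_mod_cast hD1r
  have hD0 : (0 : ℝ) < D := by linarith
  have hxB : x ≤ B := by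
    have h7 : (x : ℝ) * L ^ K ≤ B * L ^ K := by
      calc (x : ℝ) * L ^ K ≤ x * D := mul_le_mul_of_nonneg_left hD1K hx0.le
        _ = D * x := mul_comm _ _
        _ ≤ _ := hDB
    exact_mod_cast le_of_mul_le_mul_right h7 (hLp K)
  have hB0 : (0 : ℝ) < B := by exact_mod_cast (by omega : 0 < B)
  have hx12 : (x : ℝ) ^ ((1 : ℝ) / (2 : ℕ)) ≤ x := by
    calc (x : ℝ) ^ ((1 : ℝ) / (2 : ℕ)) ≤ (x : ℝ) ^ (1 : ℝ) :=
          Real.rpow_le_rpow_of_exponent_le hx1 (by norm_num)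
      _ = x := Real.rpow_one _
  have hLx : L ^ (K + A) ≤ (x : ℝ) ^ ((1 : ℝ) / (2 : ℕ)) := by
    rwa [one_mul] at b6
  have hLxK : L ^ K ≤ x := ((hLL (by omega)).trans hLx).trans hx12
  have hBx : (B : ℝ) ≤ (x : ℝ) ^ (K + 2) := by
    calc (B : ℝ) ≤ D * x * L ^ K := hBD
      _ ≤ (x : ℝ) ^ K * x * x := by gcongr
      _ = _ := by ring
  have hc0 : 1 ≤ |c| := Int.one_le_abs hc
  have hcr : (1 : ℝ) ≤ ((|c| : ℤ) : ℝ) := by exact_mod_cast hc0
  -- `|c| ≤ √x`
  set t : ℝ := (x : ℝ) ^ ((1 : ℝ) / (2 : ℕ)) with ht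
  have ht0 : 0 < t := Real.rpow_pos_of_pos hx0 _
  have ht2 : t ^ 2 = x := by
    rw [ht, ← Real.rpow_natCast, ← Real.rpow_mul hx0.le]
    norm_num
  have hct : ((|c| : ℤ) : ℝ) ≤ t := by
    have h7 : (((|c| : ℤ) : ℝ)) ^ 2 ≤ t ^ 2 := by
      rw [ht2]
      calc (((|c| : ℤ) : ℝ)) ^ 2 ≤ (((|c| : ℤ) : ℝ)) ^ 30 := pow_le_pow_right₀ hcr (by norm_num)
        _ ≤ x := by exact_mod_cast hcx
    exact le_of_pow_le_pow_left₀ (by norm_num) ht0.le h7
  -- the exceptional sets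
  obtain ⟨Bad1, hB1s, hB1c, hB1⟩ := b1 D B hD1C hD2 hDB hBD c hc hcx
  obtain ⟨Bad4, hB4s, hB4c, hB4⟩ := b2 z hz1 hz2 D B hDn hD2 hxB hBx c hc hcx
  have hB5c := b3 z w hzm (by rw [← hρ]; exact hw1) D B hDn hD2 hxB c hc hcx
  set Bad5 := (Icc 1 D ×ˢ Icc 1 B).filter (fun ab : ℕ × ℕ =>
    2 * (1 / 8 : ℝ) < |SJ ((ab.2 : ℤ) ^ 2 - 4 * (ab.1 : ℤ) * c) z w|) with hBad5
  set Bad2 := (Icc 1 D ×ˢ Icc 1 B).filter (fun ab : ℕ × ℕ => ∃ p : ℕ, p.Prime ∧ z < p ∧ p ∣ ab.1 ∧ p ∣ ab.2) with hBad2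
  have hB2c : (#Bad2 : ℝ) ≤ D * B / z := big_gcd_card D B z (by omega)
  obtain ⟨b₀, hb₀⟩ : ∃ b₀ : ℕ, b₀ = 13 * c.natAbs * D := ⟨_, rfl⟩
  set Bad3 := Icc 1 D ×ˢ Icc 1 b₀ with hBad3
  have hcn : (|c| : ℤ) = (c.natAbs : ℤ) := (Int.natCast_natAbs c).symm
  have hcnr : ((c.natAbs : ℕ) : ℝ) = ((|c| : ℤ) : ℝ) := Nat.cast_natAbs c
  have hB3c : (#Bad3 : ℝ) ≤ D * B / (8 * L ^ U) := by
    have hcard : #Bad3 = D * b₀ := by
      rw [hBad3, card_product, Nat.card_Icc, Nat.card_Icc, Nat.add_sub_cancel, Nat.add_sub_cancel]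
    rw [hcard, hb₀]
    push_cast
    rw [mul_div_assoc]
    apply mul_le_mul_of_nonneg_left _ hD0.le
    rw [le_div_iff₀ (by positivity), hcnr]
    have h8 : ((|c| : ℤ) : ℝ) * (104 * L ^ (U + K)) ≤ x := by
      rw [← ht2, sq]
      exact mul_le_mul hct b5 (by positivity) ht0.le
    have h9 : (13 * ((|c| : ℤ) : ℝ) * D * (8 * L ^ U)) * L ^ K ≤ B * L ^ K := by
      calc (13 * ((|c| : ℤ) : ℝ) * D * (8 * L ^ U)) * L ^ K = (((|c| : ℤ) : ℝ) * (104 * L ^ (U + K))) * D := by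
            rw [pow_add]; ring
        _ ≤ x * D := mul_le_mul_of_nonneg_right h8 hD0.le
        _ = D * x := mul_comm _ _
        _ ≤ _ := hDB
    exact le_of_mul_le_mul_right h9 (hLp K)
  have hDB0 : (0 : ℝ) ≤ D * B := by positivity
  have hsm : ∀ {i : ℕ}, U < i → (D : ℝ) * B / L ^ i ≤ D * B / (8 * L ^ U) := by
    intro i hi
    apply div_le_div_of_nonneg_left hDB0 (by positivity)
    calc 8 * L ^ U ≤ L * L ^ U := mul_le_mul_of_nonneg_right (by linarith) (hLp U).le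
      _ = L ^ (U + 1) := (pow_succ' _ _).symm
      _ ≤ L ^ i := hLL (by omega)
  refine ⟨((Bad1 ∪ Bad4) ∪ Bad5) ∪ (Bad2 ∪ (Icc 1 D ×ˢ Icc 1 B).filter (fun ab => ab ∈ Bad3)), ?_, ?_, ?_⟩
  · apply union_subset (union_subset (union_subset hB1s hB4s) (filter_subset _ _))
    exact union_subset (filter_subset _ _) (filter_subset _ _)
  · have h7 : (#(((Bad1 ∪ Bad4) ∪ Bad5) ∪ (Bad2 ∪ (Icc 1 D ×ˢ Icc 1 B).filter (fun ab => ab ∈ Bad3))) : ℝ) ≤
        (#Bad1 + #Bad4 + #Bad5) + (#Bad2 + #Bad3) := by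
      have g1 := card_union_le Bad1 Bad4
      have g1' := card_union_le (Bad1 ∪ Bad4) Bad5
      have g2 := card_union_le Bad2 ((Icc 1 D ×ˢ Icc 1 B).filter (fun ab => ab ∈ Bad3))
      have g3 := card_union_le ((Bad1 ∪ Bad4) ∪ Bad5) (Bad2 ∪ (Icc 1 D ×ˢ Icc 1 B).filter (fun ab => ab ∈ Bad3))
      have g4 : #((Icc 1 D ×ˢ Icc 1 B).filter (fun ab => ab ∈ Bad3)) ≤ #Bad3 :=
        card_le_card (fun ab hab => (mem_filter.1 hab).2)
      exact_mod_cast (by omega : #(((Bad1 ∪ Bad4) ∪ Bad5) ∪ (Bad2 ∪ (Icc 1 D ×ˢ Icc 1 B).filter (fun ab => ab ∈ Bad3))) ≤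
        (#Bad1 + #Bad4 + #Bad5) + (#Bad2 + #Bad3))
    refine h7.trans ?_
    have h8 : (D : ℝ) * B / L ^ (U + A + 4) ≤ D * B / (8 * L ^ U) := hsm (by omega)
    have h9 : (D : ℝ) * B / (4 * L ^ (U + 3)) ≤ D * B / (8 * L ^ U) := by
      refine le_trans ?_ (hsm (show U < U + 3 by omega))
      apply div_le_div_of_nonneg_left hDB0 (hLp _)
      have := hLp (U + 3)
      linarith
    have h9' : (D : ℝ) * B / L ^ (U + 3) ≤ D * B / (8 * L ^ U) := hsm (by omega)
    have h10 : (D : ℝ) * B / z ≤ D * B / (8 * L ^ U) :=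
      div_le_div_of_nonneg_left hDB0 (by positivity) hzU3
    have h11 : (D : ℝ) * B / L ^ U = 8 * (D * B / (8 * L ^ U)) := by field_simp
    have h12 : 0 ≤ (D : ℝ) * B / (8 * L ^ U) := by positivity
    rw [h11]
    linarith
  · intro a ha b hb hab hadm u X huX hXA
    simp only [mem_union, mem_filter, not_or, not_and] at hab
    obtain ⟨⟨⟨n1, n4⟩, n5⟩, n2, n3⟩ := hab
    have hab' : (a, b) ∈ Icc 1 D ×ˢ Icc 1 B := mem_product.2 ⟨ha, hb⟩
    have n3' := n3 hab'
    have hmid : |SJ ((b : ℤ) ^ 2 - 4 * (a : ℤ) * c) z w| ≤ 1 / 4 := by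
      by_contra hcon
      push Not at hcon
      apply n5
      rw [hBad5, mem_filter]
      refine ⟨hab', ?_⟩
      simpa using (by linarith : 2 * (1 / 8 : ℝ) < |SJ ((b : ℤ) ^ 2 - 4 * (a : ℤ) * c) z w|)
    have hab2 : NoBig a b z := by
      intro p hp hzp hpd
      apply n2
      rw [hBad2, mem_filter]
      exact ⟨hab', p, hp, hzp, by exact_mod_cast hpd.1, by exact_mod_cast hpd.2⟩
    have hab3 : NoBig a b w := fun p hp hwp => hab2 p hp (lt_of_le_of_lt hzw hwp)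
    have hbb : b₀ < b := by
      by_contra hcon
      push Not at hcon
      apply n3'
      rw [hBad3, mem_product, mem_Icc, mem_Icc]
      rw [mem_Icc] at ha hb
      exact ⟨ha, hb.1, hcon⟩
    have hbz : 13 * |c| * D < (b : ℤ) := by
      have h7 : ((b₀ : ℕ) : ℤ) < b := by exact_mod_cast hbb
      have h8 : ((b₀ : ℕ) : ℤ) = 13 * |c| * D := by
        rw [hb₀, hcn]
        push_cast
        ring
      linarith
    have hDz : (1 : ℤ) ≤ D := by exact_mod_cast hDn
    have hcD : |c| ≤ |c| * D := le_mul_of_one_le_right (by positivity) hDz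
    have hb8 : 8 * |c| * D ≤ (b : ℤ) := by nlinarith
    have hb4 : |c| + 4 ≤ (b : ℤ) := by nlinarith
    obtain ⟨-, hSJ⟩ := hB4 a ha b hb n4 hb8
    obtain ⟨S, hS0, hSt, hcount⟩ := hB1 a ha b hb n1 hadm
    have ha' := mem_Icc.1 ha
    have hb' := mem_Icc.1 hb
    have ha0 : (0 : ℝ) < a := by exact_mod_cast ha'.1
    -- the constant is close to the density cut at `w`
    have hSJ' : ∀ᶠ N in atTop, |SJ ((b : ℤ) ^ 2 - 4 * (a : ℤ) * c) w N| ≤ 3 / 8 := by
      filter_upwards [hSJ, eventually_ge_atTop w] with N hN hwN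
      rw [SJ_split _ hzw hwN] at hN
      have h8 : (1 : ℝ) / L ^ (U + 3) ≤ 1 / 8 := by
        apply one_div_le_one_div_of_le (by norm_num)
        have : L ≤ L ^ (U + 3) := le_self_pow₀ hL1 (by omega)
        linarith
      rw [abs_le] at hN hmid ⊢
      constructor <;> linarith [hN.1, hN.2, hmid.1, hmid.2]
    have hla : Real.log a ≤ K * L := by
      have h7 : (a : ℝ) ≤ (x : ℝ) ^ K := by
        have : (a : ℝ) ≤ D := by exact_mod_cast ha'.2
        exact this.trans hD2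
      have h8 := Real.log_le_log ha0 h7
      rwa [Real.log_pow, ← hL] at h8
    have hla0 : 0 ≤ Real.log a := Real.log_nonneg (by exact_mod_cast ha'.1)
    have hη : 3 / 8 + 5 / (w : ℝ) + 4 * Real.log a / w ≤ 1 / 2 := by
      have h8 : 5 / (w : ℝ) + 4 * Real.log a / w ≤ 1 / 8 := by
        rw [← add_div, div_le_div_iff₀ hw0 (by norm_num), one_mul]
        have h9 : 32 * (L * L) ≤ w := by
          have h10 : L * L ≤ L ^ (E + 2) := by
            rw [← sq]
            exact hLL (by omega)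
          linarith
        nlinarith
      linarith
    have hw22 : 2 ≤ w := hz22.trans hzw
    obtain ⟨C', hC0, hCt, hC⟩ := const_close a b c hadm w hw22 hab3 (3 / 8) hSJ' hη
    have hCS : C' = S := tendsto_nhds_unique hCt hSt
    rw [hCS] at hC
    obtain ⟨G, hG⟩ : ∃ G, G = eps a b * S * gcdProd a b := ⟨_, rfl⟩
    rw [← hG] at hC
    have hG0 : 0 < G := by rw [hG]; exact mul_pos (mul_pos (eps_pos a b) hS0) (gcdProd_pos a b)
    have hGd : dens 0 c a b w ≤ 2 * G := by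
      have h8 := (abs_le.1 hC).2
      have h9 : 2 * (3 / 8 + 5 / (w : ℝ) + 4 * Real.log a / w) * G ≤ 1 * G :=
        mul_le_mul_of_nonneg_right (by linarith) hG0.le
      linarith
    -- the window
    have hX0 : (0 : ℝ) < X := by
      by_contra hcon
      push Not at hcon
      have : (X : ℝ) = 0 := le_antisymm hcon (Nat.cast_nonneg _)
      rw [this, zero_mul] at hXA
      linarith
    have hXn : 0 < X := by exact_mod_cast hX0
    have hwX : w ≤ X := by
      have h8 : ρ * L ^ A ≤ x := by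
        have h9 : ρ ≤ t := by
          rw [hρ, ht]
          exact Real.rpow_le_rpow_of_exponent_le hx1 (by norm_num)
        have h11 : L ^ A ≤ t := (hLL (by omega)).trans hLx
        calc ρ * L ^ A ≤ t * t := mul_le_mul h9 h11 (hLp A).le ht0.le
          _ = x := by rw [← sq, ht2]
      by_contra hcon
      push Not at hcon
      have h12 : (X : ℝ) < w := by exact_mod_cast hcon
      have h13 : (X : ℝ) * L ^ A < ρ * L ^ A := mul_lt_mul_of_pos_right (by linarith) (hLp A)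
      linarith
    have hcnt := hcount u (u + X) (by omega) huX
    rw [← hG] at hcnt
    have hsub : (#((Ioc u (u + X)).filter (fun m : ℕ => ((a : ℤ) * (m : ℤ) ^ 2 + b * m + c).toNat.Prime)) : ℝ) ≤
        (#((Ioc u (u + X)).filter (fun m : ℕ => ((quad a b c).eval (m : ℤ)).natAbs.Prime)) : ℝ) := by
      refine Nat.cast_le.2 (card_le_card ?_)
      intro m hm
      rw [mem_filter] at hm ⊢
      refine ⟨hm.1, ?_⟩
      rw [quad_eval]
      have h8 := hm.2.pos
      have h9 : ((a : ℤ) * (m : ℤ) ^ 2 + b * m + c).natAbs = ((a : ℤ) * (m : ℤ) ^ 2 + b * m + c).toNat := by omega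
      rw [h9]
      exact hm.2
    have hval : ∀ m ∈ Ioc u (u + X), 1 / ((K + 4) * L) ≤ 1 / Real.log ((a : ℝ) * m ^ 2 + b * m + c) := by
      intro m hm
      rw [mem_Ioc] at hm
      have hm1 : (1 : ℤ) ≤ m := by exact_mod_cast (by omega : 1 ≤ m)
      have hca := neg_abs_le c
      have h8 : (4 : ℤ) ≤ (a : ℤ) * (m : ℤ) ^ 2 + b * m + c := by
        have h9 : (b : ℤ) ≤ b * m := le_mul_of_one_le_right (by positivity) hm1
        have h10 : (0 : ℤ) ≤ a * (m : ℤ) ^ 2 := by positivity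
        linarith
      have h9 : (4 : ℝ) ≤ (a : ℝ) * m ^ 2 + b * m + c := by exact_mod_cast h8
      have h10 : (a : ℝ) * m ^ 2 + b * m + c ≤ (x : ℝ) ^ (K + 4) := by
        have hmx : (m : ℝ) ≤ x := by exact_mod_cast (by omega : m ≤ x)
        have hm0 : (0 : ℝ) ≤ m := Nat.cast_nonneg _
        have k1 : (a : ℝ) * m ^ 2 ≤ (x : ℝ) ^ K * x ^ 2 := by
          have : (a : ℝ) ≤ D := by exact_mod_cast ha'.2
          exact mul_le_mul (this.trans hD2) (pow_le_pow_left₀ hm0 hmx 2) (by positivity) (by positivity)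
        have k2 : (b : ℝ) * m ≤ (x : ℝ) ^ (K + 2) * x := by
          have : (b : ℝ) ≤ B := by exact_mod_cast hb'.2
          exact mul_le_mul (this.trans hBx) hmx hm0 (by positivity)
        have k3 : (c : ℝ) ≤ x := by
          have g1 : (c : ℝ) ≤ ((|c| : ℤ) : ℝ) := by exact_mod_cast le_abs_self c
          have g2 : t ≤ x := by
            rw [← ht2, sq]
            exact le_mul_of_one_le_right ht0.le (hcr.trans hct)
          linarith
        have k4 : (1 : ℝ) ≤ (x : ℝ) ^ (K + 2) := one_le_pow₀ hx1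
        have k5 : (x : ℝ) ^ K * x ^ 2 = (x : ℝ) ^ (K + 2) := (pow_add _ _ _).symm
        have k6 : (x : ℝ) ^ (K + 4) = (x : ℝ) ^ (K + 2) * x * x := by ring
        rw [k5] at k1
        rw [k6]
        have k7 : (x : ℝ) ^ (K + 2) ≤ (x : ℝ) ^ (K + 2) * x := le_mul_of_one_le_right (by positivity) hx1
        have k8 : (x : ℝ) ≤ (x : ℝ) ^ (K + 2) * x := le_mul_of_one_le_left hx0.le k4
        have k9 : (x : ℝ) ^ (K + 2) * x * 4 ≤ (x : ℝ) ^ (K + 2) * x * x := mul_le_mul_of_nonneg_left hx4r (by positivity)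
        linarith
      have h11 : 0 < Real.log ((a : ℝ) * m ^ 2 + b * m + c) := Real.log_pos (by linarith)
      apply one_div_le_one_div_of_le h11
      have h12 := Real.log_le_log (by linarith) h10
      rw [Real.log_pow, ← hL] at h12
      exact_mod_cast h12
    have hsum : (X : ℝ) / ((K + 4) * L) ≤ ∑ m ∈ Ioc u (u + X), 1 / Real.log ((a : ℝ) * m ^ 2 + b * m + c) := by
      calc (X : ℝ) / ((K + 4) * L) = ∑ m ∈ Ioc u (u + X), 1 / ((K + 4) * L) := by
            rw [sum_const, Nat.card_Ioc, nsmul_eq_mul, Nat.add_sub_cancel_left]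
            ring
        _ ≤ _ := sum_le_sum hval
    have herr : (x : ℝ) / L ^ (U + A + 4) ≤ X / (2 * ((K + 4) * L)) := by
      rw [div_le_div_iff₀ (hLp _) (by positivity)]
      have h8 : 2 * ((K + 4) * L) ≤ L ^ 4 := by
        have h9 : 2 * ((K : ℝ) + 4) ≤ L := by linarith
        have h10 : L * L ≤ L ^ 4 := by
          rw [← sq]
          exact hLL (by norm_num)
        nlinarith
      have h9 : L ^ 4 ≤ L ^ (U + 4) := hLL (by omega)
      calc (x : ℝ) * (2 * ((K + 4) * L)) ≤ (X * L ^ A) * L ^ (U + 4) :=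
            mul_le_mul hXA (h8.trans h9) (by positivity) (by positivity)
        _ = X * L ^ (U + A + 4) := by ring
    have hlow : G * (X / (2 * ((K + 4) * L))) ≤
        (#((Ioc u (u + X)).filter (fun m : ℕ => ((a : ℤ) * (m : ℤ) ^ 2 + b * m + c).toNat.Prime)) : ℝ) := by
      have h8 := (abs_le.1 hcnt).1
      have h9 := mul_le_mul_of_nonneg_left hsum hG0.le
      have h10 := mul_le_mul_of_nonneg_left herr hG0.le
      have h11 : (X : ℝ) / ((K + 4) * L) = 2 * (X / (2 * ((K + 4) * L))) := by field_simp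
      rw [h11] at h9
      rw [mul_div_assoc] at h8
      linarith
    refine le_trans ?_ (hlow.trans hsub)
    have hPX := PX_dens a b c hwX
    have hV := hprod w (by
      have : (3 : ℝ) ≤ w := by linarith
      exact_mod_cast this)
    have hV2 : Vz w ≤ 200 * C₁ / L := by
      refine hV.trans ?_
      rw [div_le_div_iff₀ (by linarith [div_pos hL0 (show (0 : ℝ) < 200 by norm_num)]) hL0]
      nlinarith
    have hV0 := Pool.Agent.H373R2.T7.Vz_pos w
    have hPX2 : PX (fun q => (Zf (quad a b c) q).card) X ≤ 2 * G * (200 * C₁ / L) := by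
      refine hPX.trans ?_
      calc dens 0 c a b w * Vz w ≤ 2 * G * Vz w := mul_le_mul_of_nonneg_right hGd hV0.le
        _ ≤ _ := mul_le_mul_of_nonneg_left hV2 (by positivity)
    calc 1 / (800 * (K + 4) * C₁) * (X * PX (fun q => (Zf (quad a b c) q).card) X)
        ≤ 1 / (800 * (K + 4) * C₁) * (X * (2 * G * (200 * C₁ / L))) := by gcongr
      _ = G * (X / (2 * ((K + 4) * L))) := by
          field_simp
          ring

/-- an admissible quadratic polynomial has no fixed prime divisor -/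
theorem NF_quad (a b c : ℤ) (h : Admissible a b c) : NF (quad a b c) := by
  intro q hq
  by_contra hcon
  push Not at hcon
  have h0 := hcon 0
  have h1 := hcon 1
  have h2 := hcon (-1)
  simp only [quad_eval] at h0 h1 h2
  have e0 : (q : ℤ) ∣ c := by simpa using h0
  have e1 : (q : ℤ) ∣ a + b := by
    have := dvd_sub h1 e0
    have e : a * 1 ^ 2 + b * 1 + c - c = a + b := by ring
    rwa [e] at this
  have e2 : (q : ℤ) ∣ a - b := by
    have := dvd_sub h2 e0
    have e : a * (-1) ^ 2 + b * (-1) + c - c = a - b := by ring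
    rwa [e] at this
  obtain ⟨-, g1, g2, -⟩ := h
  rcases hq.eq_two_or_odd' with h3 | h3
  · rw [h3] at e0 e1
    exact g2 ⟨by exact_mod_cast e1, by exact_mod_cast e0⟩
  · have hqp : Prime (q : ℤ) := Nat.prime_iff_prime_int.1 hq
    have hq2 : ¬ (q : ℤ) ∣ 2 := by
      intro h4
      have h5 : q ∣ 2 := by exact_mod_cast h4
      have := (Nat.prime_dvd_prime_iff_eq hq Nat.prime_two).1 h5
      rw [this] at h3
      exact absurd h3 (by decide)
    have e3 : (q : ℤ) ∣ a := by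
      have := dvd_add e1 e2
      have e : a + b + (a - b) = 2 * a := by ring
      rw [e] at this
      exact (hqp.dvd_or_dvd this).resolve_left hq2
    have e4 : (q : ℤ) ∣ b := (dvd_add_right e3).1 e1
    exact hqp.not_isUnit (g1 q e3 e4 e0)

end Pool.Agent.X26.QS
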